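import Pool.Agent.Lib.MP_69ff52_al.Pow

set_option autoImplicit false

namespace Pool.Agent.Results.MP_69ff52_al.Powers

open Matrix Pool.Agent.Lib.MP_69ff52_al

variable {m : ℕ} {R : Type} [CommRing R]

/-- A transvection: `1 + u v` with `u` a unimodular column and `v` a row with `v u = 0`. -/
def IsTransvection (t : SpecialLinearGroup (Fin m) R) : Prop :=
  ∃ u v : Fin m → R, Ideal.span (Set.range u) = ⊤ ∧ v ⬝ᵥ u = 0 ∧
    (t : Matrix (Fin m) (Fin m) R) = 1 + vecMulVec u v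

/-- The element is a product of at most `N` transvections. -/
def Len (N : ℕ) (g : SpecialLinearGroup (Fin m) R) : Prop :=
  ∃ l : List (SpecialLinearGroup (Fin m) R),
    l.length ≤ N ∧ (∀ t ∈ l, IsTransvection t) ∧ l.prod = g

lemma IsTransvection.conj {t : SpecialLinearGroup (Fin m) R} (h : IsTransvection t)
    (a : SpecialLinearGroup (Fin m) R) : IsTransvection (a * t * a⁻¹) := by
  obtain ⟨u, v, h1, h2, h3⟩ := h
  have e : a⁻¹.1 * a.1 = 1 := congrArg Subtype.val (inv_mul_cancel a)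
  have e' : ∀ y : Fin m → R, (y ᵥ* a⁻¹.1) ⬝ᵥ (a.1 *ᵥ u) = y ⬝ᵥ u := fun y => by
    rw [← dotProduct_mulVec, mulVec_mulVec, e, one_mulVec]
  refine ⟨a.1 *ᵥ u, v ᵥ* a⁻¹.1, ?_, (e' v).trans h2, ?_⟩
  · obtain ⟨y, hy⟩ := Ideal.mem_span_range_iff_exists_fun.mp ((Ideal.eq_top_iff_one _).mp h1)
    exact (Ideal.eq_top_iff_one _).mpr
      (Ideal.mem_span_range_iff_exists_fun.mpr ⟨y ᵥ* a⁻¹.1, (e' y).trans hy⟩)
  · change a.1 * t.1 * a⁻¹.1 = _
    rw [h3, mul_add, add_mul, mul_one, mul_eq_one_comm.mp e, mul_vecMulVec, vecMulVec_mul]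

lemma Len.conj {N : ℕ} {g : SpecialLinearGroup (Fin m) R} (h : Len N g)
    (a : SpecialLinearGroup (Fin m) R) : Len N (a * g * a⁻¹) := by
  obtain ⟨l, h1, h2, rfl⟩ := h
  refine ⟨l.map (MulAut.conj a), by simpa using h1, fun t ht => ?_, ?_⟩
  · obtain ⟨s, hs, rfl⟩ := List.mem_map.mp ht
    exact (h2 s hs).conj a
  · rw [← map_list_prod]
    rfl

/-- Taking powers is multiplicative up to a bounded number of transvections, uniformly in the
exponent and in the factors. -/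
theorem result (n : ℕ) : ∃ N : ℕ,
    ∀ (l : List (SpecialLinearGroup (Fin (n + 3)) (MvPolynomial (Fin n) ℤ))) (k : ℤ),
      ∃ w, Len (N * l.length) w ∧ l.prod ^ k = w * (l.map (· ^ k)).prod := by
  obtain ⟨N, hN⟩ := bounded_mul_pow (ι := Fin (n + 3)) (sr_mv n) (by simp)
  refine ⟨N, fun l k => ?_⟩
  induction l with
  | nil => exact ⟨1, ⟨[], by simp, by simp, rfl⟩, by simp⟩
  | cons g l ih =>
    obtain ⟨w, hw, e⟩ := ih
    obtain ⟨l1, h1, h2, h3⟩ := hN g l.prod k
    obtain ⟨l2, h4, h5, h6⟩ := hw.conj (g ^ k)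
    refine ⟨l1.prod * l2.prod, ⟨l1 ++ l2, ?_, fun t ht => ?_, List.prod_append⟩, ?_⟩
    · rw [List.length_append, List.length_cons, mul_add_one]
      omega
    · refine (List.mem_append.mp ht).elim (fun h => ?_) (h5 t)
      obtain ⟨p, q, c, hpq, e⟩ := h2 t h
      refine ⟨Pi.single p 1, Pi.single q c, (Ideal.eq_top_iff_one _).mpr
        (Ideal.subset_span ⟨p, Pi.single_eq_same _ _⟩), by simp [hpq], e.trans ?_⟩
      congr 1
      ext a b
      simp [vecMulVec_apply, single_apply, Pi.single_apply, ite_and, eq_comm]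
      split_ifs <;> rfl
    · rw [List.prod_cons, h3, e, h6, List.map_cons, List.prod_cons]
      group

end Pool.Agent.Results.MP_69ff52_al.Powers
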